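import Pool.Agent.Y223.G.Stm8

/-!
# The parts of degree zero of an atlas with two gradings
-/

set_option autoImplicit false

namespace Pool.Agent.Y394.H

open Pool.Agent.Y223.G

section

variable {k K K₂ : Type} [CommRing k] [Field K] [Field K₂] [Algebra k K] [Algebra k K₂]

/-- The elements of `K[S, S⁻¹]` whose images are in the part of degree zero. -/
noncomputable def Dn (ε : LP K →ₐ[k] K₂) (C : Subalgebra k (LP K₂)) : Subalgebra k (LP K) :=
  (d0 C).comap ε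

lemma mem_Dn {ε : LP K →ₐ[k] K₂} {C : Subalgebra k (LP K₂)} {w : LP K} :
    w ∈ Dn ε C ↔ hm 0 (ε w) ∈ C := Iff.rfl

/-- The elements of the part of degree zero are the images of sums of monomials. -/
lemma key (ε : LP K →ₐ[k] K₂) (C : Subalgebra k (LP K₂)) (hC : BG ε C) {y : K₂}
    (hy : hm 0 y ∈ C) :
    ∃ w ∈ Submodule.span k {g | g ∈ Dn ε C ∧ ∃ (d : ℤ) (a : K), g = hm d a}, ε w = y := by
  have h1 : ∀ f ∈ Submodule.span k {g | g ∈ C ∧ ∃ (d b : ℤ) (a : K), g = hm d (ε (hm b a))},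
      ∃ w ∈ Submodule.span k {g | g ∈ Dn ε C ∧ ∃ (d : ℤ) (a : K), g = hm d a},
        ε w = f.coeff 0 := by
    intro f hf
    induction hf using Submodule.span_induction with
    | mem g hg =>
      obtain ⟨hg, d, b, a, rfl⟩ := hg
      by_cases hd : d = 0
      · subst hd
        exact ⟨hm b a, Submodule.subset_span ⟨hg, b, a, rfl⟩, (coeff_hm_same _ _).symm⟩
      · refine ⟨0, Submodule.zero_mem _, ?_⟩
        rw [coeff_hm, if_neg hd, map_zero]
    | zero =>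
      refine ⟨0, Submodule.zero_mem _, ?_⟩
      rw [map_zero, AddMonoidAlgebra.coeff_zero, Finsupp.zero_apply]
    | add x z _ _ hx hz =>
      obtain ⟨w, hw, hw'⟩ := hx
      obtain ⟨v, hv, hv'⟩ := hz
      refine ⟨w + v, Submodule.add_mem _ hw hv, ?_⟩
      rw [map_add, hw', hv', AddMonoidAlgebra.coeff_add, Finsupp.add_apply]
    | smul r x _ hx =>
      obtain ⟨w, hw, hw'⟩ := hx
      refine ⟨r • w, Submodule.smul_mem _ r hw, ?_⟩
      rw [map_smul, hw', AddMonoidAlgebra.coeff_smul, Finsupp.smul_apply]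
  obtain ⟨w, hw, hw'⟩ := h1 _ (hC _ hy)
  exact ⟨w, hw, by rw [hw', coeff_hm_same]⟩

lemma span_le_Dn (ε : LP K →ₐ[k] K₂) (C : Subalgebra k (LP K₂)) {w : LP K}
    (hw : w ∈ Submodule.span k {g | g ∈ Dn ε C ∧ ∃ (d : ℤ) (a : K), g = hm d a}) :
    w ∈ Dn ε C := by
  have h : Submodule.span k {g | g ∈ Dn ε C ∧ ∃ (d : ℤ) (a : K), g = hm d a} ≤
      Subalgebra.toSubmodule (Dn ε C) := Submodule.span_le.2 fun g hg => hg.1
  exact h hw

lemma gr_Dn (ε : LP K →ₐ[k] K₂) (hε : Function.Injective ε) (C : Subalgebra k (LP K₂))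
    (hC : BG ε C) : Gr (Dn ε C) := by
  apply gr_of_span
  intro f hf
  obtain ⟨w, hw, hw'⟩ := key ε C hC (mem_Dn.1 hf)
  rwa [hε hw'] at hw

/-- The map of `Dn ε C` to the part of degree zero of `C`. -/
noncomputable def phi (ε : LP K →ₐ[k] K₂) (C : Subalgebra k (LP K₂)) : Dn ε C →ₐ[k] d0 C :=
  (ε.comp (Dn ε C).val).codRestrict (d0 C) fun w => w.2

lemma phi_bij (ε : LP K →ₐ[k] K₂) (hε : Function.Injective ε) (C : Subalgebra k (LP K₂))
    (hC : BG ε C) : Function.Bijective (phi ε C) := by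
  constructor
  · intro a b hab
    apply Subtype.ext
    apply hε
    exact congrArg (fun x : d0 C => (x : K₂)) hab
  · rintro ⟨y, hy⟩
    obtain ⟨w, hw, hw'⟩ := key ε C hC (mem_d0.1 hy)
    exact ⟨⟨w, span_le_Dn ε C hw⟩, Subtype.ext hw'⟩

lemma eps_inv (ε : LP K →ₐ[k] K₂) (c : ℤ) {u : K} (hu : u ≠ 0) :
    (ε (hm c u))⁻¹ = ε (hm (-c) u⁻¹) := by
  apply inv_eq_of_mul_eq_one_right
  rw [← map_mul, hm_mul, add_neg_cancel, mul_inv_cancel₀ hu, hm_one, map_one]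

lemma zer_mul (a b : K₂) : hm 0 (a * b) = hm 0 a * hm 0 b := by
  rw [hm_mul, add_zero]

lemma zer_pow (a : K₂) (n : ℕ) : hm 0 (a ^ n) = hm 0 a ^ n := by
  rw [hm_pow, mul_zero]

end

/-- The parts of degree zero form an atlas for the second grading. -/
theorem t_DOWN (hD0 : S_D0) : S_DOWN := by
  intro k K K₂ _ _ _ _ _ _ _ _ ε hE P M₀ 𝒱 h𝒱 n₀ hn₀ T _ C H hA
  have key2 : ∀ t, Algebra.FiniteType k (Dn ε (C t)) ∧ IsRegularRing (Dn ε (C t)) := by
    intro t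
    obtain ⟨r, hr0, hr1, c, u, hu0, hu, hu'⟩ := hA.un t
    obtain rfl : r = 1 := by omega
    have h0 : ε (hm c u) ≠ 0 := by
      intro h
      exact hm_ne_zero hu0 (hE.inj (h.trans (map_zero ε).symm))
    have h1 : hm 1 (ε (hm c u)) ∈ C t := by simpa using hu
    have h2 : hm (-1) (ε (hm c u))⁻¹ ∈ C t := by
      rw [eps_inv ε c hu0]
      simpa using hu'
    obtain ⟨h3, h4⟩ := hD0 k K₂ (C t) (hA.ft t) (hA.rg t) (hA.gr t) _ h0 h1 h2
    let e : Dn ε (C t) ≃ₐ[k] d0 (C t) :=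
      AlgEquiv.ofBijective (phi ε (C t)) (phi_bij ε hE.inj (C t) (hA.bg t))
    exact ⟨Algebra.FiniteType.equiv h3 e.symm, IsRegularRing.of_ringEquiv e.symm.toRingEquiv⟩
  have hgr : ∀ t, Gr (Dn ε (C t)) := fun t => gr_Dn ε hE.inj (C t) (hA.bg t)
  refine ⟨fun t => Dn ε (C t), ?_⟩
  refine
    { H0 := hA.H0
      HK := fun t => Subfield.mem_top _
      ft := fun t => (key2 t).1
      rg := fun t => (key2 t).2
      gr := hgr
      ss := fun t => hA.si t
      un := ?_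
      fr := ?_
      inF := fun t d x _ => Subfield.mem_top _
      rt := fun t t' => hA.rt t t'
      gl := ?_
      cv := ?_
      ve := fun hP t => hA.vs hP t
      mo := ?_ }
  · intro t
    obtain ⟨w, hw, h1, h2⟩ := hA.su t
    exact ⟨n₀, hn₀, le_rfl, w, hw, h1, h2⟩
  · intro t x _
    obtain ⟨y, y', hy, hy', hy0, hxy⟩ := hA.fr t (ε (hm 0 x))
    obtain ⟨w, hw, rfl⟩ := key ε (C t) (hA.bg t) hy
    obtain ⟨w', hw', rfl⟩ := key ε (C t) (hA.bg t) hy'
    replace hw := span_le_Dn ε (C t) hw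
    replace hw' := span_le_Dn ε (C t) hw'
    have hw0 : w' ≠ 0 := fun h => hy0 (by rw [h, map_zero])
    have hww : w = hm 0 x * w' := by
      apply hE.inj
      rw [map_mul, hxy, div_mul_cancel₀ _ hy0]
    obtain ⟨b, hb⟩ : ∃ b, w'.coeff b ≠ 0 := by
      by_contra hcon
      push Not at hcon
      apply hw0
      rw [eq_sum_hm w']
      refine Finset.sum_eq_zero fun d _ => ?_
      rw [hcon d, hm_zero]
    have ha : hm b (x * w'.coeff b) ∈ Dn ε (C t) := by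
      have := hgr t w hw b
      rwa [hww, coeff_hm_mul, sub_zero] at this
    have ha' : hm b (w'.coeff b) ∈ Dn ε (C t) := hgr t w' hw' b
    obtain ⟨v, hv0, hv1, hv2⟩ := hA.su t
    have hz : hm ((b.natAbs : ℤ) * n₀) (v ^ (b.natAbs : ℤ)) ∈ Dn ε (C t) :=
      zpow_unit_mem (C := Dn ε (C t)) hv1 hv2 (b.natAbs : ℤ)
    have hs : hm (-(b + (b.natAbs : ℤ) * n₀)) (1 : K) ∈ Dn ε (C t) := by
      have h1 : 0 ≤ b + (b.natAbs : ℤ) * n₀ := by
        have h2 : (1 : ℤ) ≤ n₀ := by exact_mod_cast hn₀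
        have h3 : (b.natAbs : ℤ) * 1 ≤ (b.natAbs : ℤ) * n₀ :=
          mul_le_mul_of_nonneg_left h2 (Int.natCast_nonneg _)
        omega
      obtain ⟨m, hm'⟩ := Int.eq_ofNat_of_zero_le h1
      rw [hm']
      have h4 : hm (-1) (1 : K) ∈ Dn ε (C t) := hA.si t
      have h5 := (Dn ε (C t)).pow_mem h4 m
      rw [hm_pow, one_pow, mul_neg, mul_one] at h5
      exact h5
    have mk : ∀ a : K, hm b a ∈ Dn ε (C t) → hm 0 (a * v ^ (b.natAbs : ℤ)) ∈ Dn ε (C t) := by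
      intro a h
      have h1 := (Dn ε (C t)).mul_mem ((Dn ε (C t)).mul_mem h hz) hs
      rw [hm_mul, hm_mul, mul_one, add_neg_cancel] at h1
      exact h1
    have hvz : v ^ (b.natAbs : ℤ) ≠ 0 := zpow_ne_zero _ hv0
    refine ⟨_, _, mk _ ha, mk _ ha', mul_ne_zero hb hvz, ?_⟩
    field_simp
  · intro t t' f hf
    obtain ⟨n, hn⟩ := hA.gl t t' (hm 0 (ε f)) hf
    refine ⟨n, ?_⟩
    rw [mem_Dn, map_mul, map_pow, zer_mul, zer_pow]
    exact hn
  · intro V hV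
    obtain ⟨V₂, hV₂, h1⟩ := h𝒱 V hV
    obtain ⟨t, ht⟩ := hA.cv V₂ hV₂
    exact ⟨t, fun x hx => h1 x (ht _ hx)⟩
  · intro hP
    obtain ⟨n, hn, h1⟩ := hA.mo hP
    refine ⟨n, hn, fun t => ⟨(h1 t).1, (h1 t).2.1, fun f hf => (h1 t).2.2 f 0 hf⟩⟩

end Pool.Agent.Y394.H
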